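import Pool.Agent.U852.Mum.Main

/-! # A Mumford group with centre the circle which is not a generalized Heisenberg group

For every odd prime `p` let `K_p` be the quotient of `ℤ ^ 6` by the radical of the alternating form

`x₁ ∧ x₂ + p x₁ ∧ x₃ + p² x₂ ∧ x₃ + p² f₁ ∧ x₁ + p⁴ f₂ ∧ x₂ + p⁶ f₃ ∧ x₃`

modulo `p ^ 8`, a finite symplectic group, and let `L_p` be the image of `x = 0`, a Lagrangian subgroup. The pair
`(K_p, L_p)` is not the direct sum of two pairs with isotropic groups. The group is `𝕋 × K`, where `K` is the
restricted product of the `K_p` with respect to the `L_p`, with half of the pairing of `K` as cocycle. -/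

namespace Pool.Agent.Results.MP_9969af_al.NotHeisenberg

universe u v w

/-- There is a locally compact Mumford group `G` whose centre is isomorphic to the circle group, and which is not a
generalized Heisenberg group. -/
theorem result : ∃ (G : Type) (_ : Group G) (_ : TopologicalSpace G),
    U852.Mum.IsMumford G ∧ ¬ U852.Mum.IsGenHeisenberg.{u, v, w} G :=
  U852.Mum.main

end Pool.Agent.Results.MP_9969af_al.NotHeisenberg
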